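import Mathlib
import Pool.Agent.Zk46.FD.Defs

/-!
# Project FD46, module CUBE: points in a cube and in a hyperplane
-/

set_option autoImplicit false
set_option linter.all false

namespace Pool.Agent.Zk95.FD46

open Pool.Agent.Zk46.FD Finset

theorem le_nm {d : ℕ} (v : Fin d → ℤ) (j : Fin d) : (v j).natAbs ≤ nm v :=
  Finset.le_sup (f := fun j => (v j).natAbs) (mem_univ j)

theorem nm_le {d : ℕ} (v : Fin d → ℤ) (n : ℕ) (h : ∀ j, (v j).natAbs ≤ n) : nm v ≤ n :=
  Finset.sup_le fun j _ => h j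

/-- the largest coordinate of the normal vector -/
theorem coord_le {d : ℕ} (t u : Fin d → ℤ) (k : Fin d) (hk0 : t k ≠ 0) (hk : ∀ i, |t i| ≤ |t k|)
    (h : ∑ j, t j * u j = 0) : |u k| ≤ ∑ i ∈ univ.erase k, |u i| := by
  rw [← add_sum_erase univ _ (mem_univ k)] at h
  have h1 : t k * u k = - ∑ i ∈ univ.erase k, t i * u i := by linarith
  have h2 : |t k| * |u k| ≤ |t k| * ∑ i ∈ univ.erase k, |u i| := by
    rw [← abs_mul, h1, abs_neg, mul_sum]
    refine (abs_sum_le_sum_abs _ _).trans (sum_le_sum fun i _ => ?_)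
    rw [abs_mul]
    exact mul_le_mul_of_nonneg_right (hk i) (abs_nonneg _)
  exact le_of_mul_le_mul_left h2 (abs_pos.2 hk0)

theorem t_CUBE : S_CUBE := by
  intro d t R h ht hR hRh S hS1 hS2 hS3
  obtain ⟨j0, hj0⟩ : ∃ j, t j ≠ 0 := by
    by_contra hc
    push Not at hc
    exact ht (funext hc)
  have hd : 1 ≤ d := by have := j0.2; omega
  have hne : (univ : Finset (Fin d)).Nonempty := ⟨j0, mem_univ _⟩
  obtain ⟨k, -, hk⟩ := exists_max_image univ (fun i => |t i|) hne
  have hk' : ∀ i, |t i| ≤ |t k| := fun i => hk i (mem_univ i)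
  have hk0 : t k ≠ 0 := by
    intro h0
    have h1 := hk' j0
    rw [h0, abs_zero] at h1
    exact hj0 (abs_nonpos_iff.1 h1)
  rcases S.eq_empty_or_nonempty with rfl | hSne
  · simp only [card_empty, Nat.cast_zero]; positivity
  obtain ⟨ρ, hρ⟩ : ∃ ρ, ρ = (R - 1) / d + 1 := ⟨_, rfl⟩
  have hρ1 : 1 ≤ ρ := by rw [hρ]; exact Nat.le_add_left 1 _
  have hρ2 : (ρ - 1) * d ≤ R - 1 := by
    rw [hρ, Nat.add_sub_cancel]; exact Nat.div_mul_le_self _ _
  have hρ3 : R ≤ ρ * d := by
    have h1 : R - 1 < ρ * d := by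
      rw [hρ, mul_comm]; exact Nat.lt_mul_div_succ (R - 1) (by omega)
    omega
  -- the minimal coordinates
  obtain ⟨a, ha⟩ : ∃ a : Fin d → ℤ, ∀ i, a i = S.inf' hSne (fun x => x i) := ⟨_, fun _ => rfl⟩
  have ha1 : ∀ i, ∀ x ∈ S, a i ≤ x i := by
    intro i x hx
    rw [ha]; exact inf'_le (fun x : Fin d → ℤ => x i) hx
  have ha2 : ∀ i, ∀ x ∈ S, x i - a i ≤ h - 1 := by
    intro i x hx
    obtain ⟨y, hy, hy1⟩ := exists_mem_eq_inf' hSne (fun x : Fin d → ℤ => x i)
    have h1 := hS1 x hx y hy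
    have h2 := le_nm (x - y) i
    rw [ha, hy1]
    have h3 : (x - y) i = x i - y i := rfl
    rw [h3] at h2
    show x i - y i ≤ h - 1
    omega
  obtain ⟨m, hm⟩ : ∃ m, m = (h - 1) / ρ + 1 := ⟨_, rfl⟩
  -- the cells
  obtain ⟨φ, hφ⟩ : ∃ φ : (Fin d → ℤ) → (Fin d → ℕ), ∀ x i, φ x i =
      if i = k then 0 else (x i - a i).toNat / ρ := ⟨_, fun _ _ => rfl⟩
  have hcard : S.card ≤ (Fintype.piFinset (fun i : Fin d => if i = k then range 1 else range m)).card := by
    refine card_le_card_of_injOn φ (fun x hx => ?_) (fun x hx y hy hxy => ?_)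
    · rw [mem_coe, Fintype.mem_piFinset]
      intro i
      rw [hφ]
      split_ifs with hi
      · exact mem_range.2 one_pos
      · rw [mem_range, hm]
        have h1 := ha2 i x hx
        have h2 : (x i - a i).toNat ≤ h - 1 := by omega
        have h3 := Nat.div_le_div_right (c := ρ) h2
        omega
    · by_contra hne'
      have h1 := hS3 x hx y hy hne'
      have h2 : ∀ i, i ≠ k → |(x - y) i| ≤ ρ - 1 := by
        intro i hi
        have h3 := congrFun hxy i
        rw [hφ, hφ, if_neg hi, if_neg hi] at h3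
        have h4 := ha1 i x hx
        have h5 := ha1 i y hy
        have h6 := Nat.div_add_mod (x i - a i).toNat ρ
        have h7 := Nat.div_add_mod (y i - a i).toNat ρ
        have h8 := Nat.mod_lt (x i - a i).toNat (show ρ > 0 by omega)
        have h9 := Nat.mod_lt (y i - a i).toNat (show ρ > 0 by omega)
        rw [h3] at h6
        have h10 : (x - y) i = x i - y i := rfl
        rw [h10, abs_le]
        constructor <;> omega
      have h3 := coord_le t (x - y) k hk0 hk' (hS2 x hx y hy)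
      have h4 : ∑ i ∈ univ.erase k, |(x - y) i| ≤ ∑ i ∈ univ.erase k, ((ρ : ℤ) - 1) :=
        sum_le_sum fun i hi => h2 i (ne_of_mem_erase hi)
      rw [sum_const, card_erase_of_mem (mem_univ k), card_univ, Fintype.card_fin, nsmul_eq_mul] at h4
      have h5 : ((d - 1 : ℕ) : ℤ) = d - 1 := by omega
      rw [h5] at h4
      have h6 : ((ρ : ℤ) - 1) * d ≤ R - 1 := by
        have : (((ρ - 1) * d : ℕ) : ℤ) ≤ ((R - 1 : ℕ) : ℤ) := by exact_mod_cast hρ2
        push_cast [Nat.cast_sub hρ1, Nat.cast_sub hR] at this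
        exact this
      have hρz : (0 : ℤ) ≤ (ρ : ℤ) - 1 := by omega
      have hdz : (1 : ℤ) ≤ d := by exact_mod_cast hd
      have h7 : nm (x - y) ≤ R - 1 := by
        refine nm_le _ _ fun i => ?_
        have h8 : |(x - y) i| ≤ R - 1 := by
          by_cases hi : i = k
          · rw [hi]
            nlinarith
          · have := h2 i hi
            nlinarith
        have h9 := abs_le.1 h8
        omega
      omega
  have hcard2 : (Fintype.piFinset (fun i : Fin d => if i = k then range 1 else range m)).card =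
      m ^ (d - 1) := by
    rw [Fintype.card_piFinset, ← mul_prod_erase univ _ (mem_univ k), if_pos rfl, card_range, one_mul]
    rw [prod_congr rfl (g := fun _ => m) (fun i hi => by rw [if_neg (ne_of_mem_erase hi), card_range]),
      prod_const, card_erase_of_mem (mem_univ k), card_univ, Fintype.card_fin]
  rw [hcard2] at hcard
  have h1 : (S.card : ℝ) ≤ (m : ℝ) ^ (d - 1) := by exact_mod_cast hcard
  refine h1.trans (pow_le_pow_left₀ (Nat.cast_nonneg m) ?_ _)
  -- the number of the cells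
  have hR0 : (0 : ℝ) < R := by exact_mod_cast hR
  have hρ0 : (0 : ℝ) < ρ := by exact_mod_cast hρ1
  have hd0 : (1 : ℝ) ≤ d := by exact_mod_cast hd
  have hh0 : (R : ℝ) ≤ h := by exact_mod_cast hRh
  have hρR : (R : ℝ) ≤ ρ * d := by exact_mod_cast hρ3
  have h2 : (((h - 1) / ρ : ℕ) : ℝ) ≤ (h : ℝ) / ρ := by
    refine Nat.cast_div_le.trans ?_
    gcongr
    exact_mod_cast Nat.sub_le h 1
  have h3 : (h : ℝ) / ρ ≤ d * h / R := by
    rw [div_le_div_iff₀ hρ0 hR0]
    nlinarith
  have h4 : (1 : ℝ) ≤ d * h / R := by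
    rw [le_div_iff₀ hR0]
    nlinarith
  have h5 : (3 : ℝ) * d * h / R = 3 * (d * h / R) := by ring
  rw [hm, h5]
  push_cast
  push_cast at h2
  linarith

end Pool.Agent.Zk95.FD46
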