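import Mathlib
import Pool.Agent.Zk46.FD.Defs

/-!
# Project FD46, module GOOD: finite Fourier series
-/

set_option autoImplicit false
set_option linter.all false

namespace Pool.Agent.Zk95.FD46

open Pool.Agent.Zk46.FD Finset

/-- the root of unity -/
noncomputable def om (q : ℕ) : ℂ := Complex.exp (2 * Real.pi * Complex.I / q)

theorem om_prim (q : ℕ) (hq : q ≠ 0) : IsPrimitiveRoot (om q) q := Complex.isPrimitiveRoot_exp q hq

theorem om_norm (q n : ℕ) (hq : q ≠ 0) : ‖om q ^ n‖ = 1 := by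
  rw [norm_pow, IsPrimitiveRoot.norm'_eq_one (om_prim q hq) hq, one_pow]

theorem om_sub (q b H : ℕ) (hq : 1 ≤ q) (hH : 1 ≤ H)
    (h : ∀ m : ℤ, (q : ℤ) ≤ H * |(b : ℤ) - m * q|) : 4 / (H : ℝ) ≤ ‖om q ^ b - 1‖ := by
  have hq0 : (0 : ℝ) < q := by exact_mod_cast hq
  have hH0 : (0 : ℝ) < H := by exact_mod_cast hH
  obtain ⟨m, hm⟩ : ∃ m : ℤ, m = round ((b : ℝ) / q) := ⟨_, rfl⟩
  obtain ⟨θ, hθ⟩ : ∃ θ : ℝ, θ = 2 * Real.pi * ((b : ℝ) / q - m) := ⟨_, rfl⟩
  have h1 : om q ^ b = Complex.exp (Complex.I * θ) := by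
    rw [om, ← Complex.exp_nat_mul]
    have h2 : (b : ℂ) * (2 * Real.pi * Complex.I / q) =
        Complex.I * θ + m * (2 * Real.pi * Complex.I) := by
      rw [hθ]; push_cast; ring
    rw [h2, Complex.exp_add, Complex.exp_int_mul_two_pi_mul_I, mul_one]
  rw [h1, Complex.norm_exp_I_mul_ofReal_sub_one, Real.norm_eq_abs, abs_mul, abs_two]
  have h3 : |(b : ℝ) / q - m| ≤ 1 / 2 := by rw [hm]; exact abs_sub_round _
  have h4 : θ / 2 = Real.pi * ((b : ℝ) / q - m) := by rw [hθ]; ring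
  have h5 : |θ / 2| ≤ Real.pi / 2 := by
    rw [h4, abs_mul, abs_of_pos Real.pi_pos]
    nlinarith [Real.pi_pos]
  have h6 := Real.mul_abs_le_abs_sin h5
  have h7 : 2 / Real.pi * |θ / 2| = 2 * |(b : ℝ) / q - m| := by
    rw [h4, abs_mul, abs_of_pos Real.pi_pos]
    field_simp
  rw [h7] at h6
  have h8 : (1 : ℝ) ≤ H * |(b : ℝ) / q - m| := by
    have h9 : ((q : ℤ) : ℝ) ≤ ((H * |(b : ℤ) - m * q| : ℤ) : ℝ) := by exact_mod_cast h m
    push_cast at h9
    have h10 : ((b : ℝ) - m * q) = q * ((b : ℝ) / q - m) := by field_simp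
    rw [h10, abs_mul, abs_of_pos hq0] at h9
    have h11 : (q : ℝ) * 1 ≤ q * (H * |(b : ℝ) / q - m|) := by linarith
    exact le_of_mul_le_mul_left h11 hq0
  have h12 : 1 / (H : ℝ) ≤ |(b : ℝ) / q - m| := by
    rw [div_le_iff₀ hH0]; linarith
  have h13 : 4 / (H : ℝ) = 4 * (1 / H) := by ring
  rw [h13]
  linarith

theorem K_bound (q b H s : ℕ) (hq : 1 ≤ q) (hH : 1 ≤ H)
    (h : ∀ m : ℤ, (q : ℤ) ≤ H * |(b : ℤ) - m * q|) :
    ‖∑ x ∈ range s, (om q ^ b) ^ x‖ ≤ H := by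
  have hH0 : (0 : ℝ) < H := by exact_mod_cast hH
  have h1 := om_sub q b H hq hH h
  have h2 : (∑ x ∈ range s, (om q ^ b) ^ x) * (om q ^ b - 1) = (om q ^ b) ^ s - 1 :=
    geom_sum_mul _ _
  have h3 : ‖∑ x ∈ range s, (om q ^ b) ^ x‖ * ‖om q ^ b - 1‖ ≤ 2 := by
    rw [← norm_mul, h2]
    refine (norm_sub_le _ _).trans ?_
    rw [← pow_mul, om_norm q _ (by omega), norm_one]
    norm_num
  have h4 : ‖∑ x ∈ range s, (om q ^ b) ^ x‖ * (4 / (H : ℝ)) ≤ 2 :=
    (mul_le_mul_of_nonneg_left h1 (norm_nonneg _)).trans h3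
  have h5 : ‖∑ x ∈ range s, (om q ^ b) ^ x‖ * 4 ≤ 2 * H := by
    rw [mul_div_assoc', div_le_iff₀ hH0] at h4
    exact h4
  linarith

theorem K_triv (q b s : ℕ) (hq : 1 ≤ q) : ‖∑ x ∈ range s, (om q ^ b) ^ x‖ ≤ s := by
  refine (norm_sum_le _ _).trans ?_
  have : ∀ x ∈ range s, ‖(om q ^ b) ^ x‖ = 1 := by
    intro x _
    rw [← pow_mul, om_norm q _ (by omega)]
  rw [sum_congr rfl this, sum_const, card_range, nsmul_eq_mul, mul_one]

/-- orthogonality -/
theorem orth (q n : ℕ) (hq : 1 ≤ q) :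
    ∑ a ∈ range q, om q ^ (a * n) = if q ∣ n then (q : ℂ) else 0 := by
  have hp := om_prim q (by omega)
  have h1 : ∀ a ∈ range q, om q ^ (a * n) = (om q ^ n) ^ a := by
    intro a _
    rw [← pow_mul, mul_comm]
  rw [sum_congr rfl h1]
  split_ifs with h
  · have h2 : om q ^ n = 1 := (hp.pow_eq_one_iff_dvd n).2 h
    rw [h2]; simp
  · have h2 : om q ^ n ≠ 1 := fun h3 => h ((hp.pow_eq_one_iff_dvd n).1 h3)
    have h3 : (∑ x ∈ range q, (om q ^ n) ^ x) * (om q ^ n - 1) = (om q ^ n) ^ q - 1 :=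
      geom_sum_mul _ _
    have h4 : (om q ^ n) ^ q = 1 := by
      rw [← pow_mul, mul_comm, pow_mul, hp.pow_eq_one, one_pow]
    rw [h4, sub_self] at h3
    rcases mul_eq_zero.1 h3 with h5 | h5
    · exact h5
    · exact absurd (sub_eq_zero.1 h5) h2

/-- the sum over all `w` -/
theorem sum_w {d : ℕ} (r s : ℕ) (c : Fin d → ℕ) (n0 q a : ℕ) :
    ∑ w ∈ W d r s, om q ^ (a * val c n0 w) =
      om q ^ (a * n0) * ∏ j, (∑ x ∈ range s, (om q ^ (a * c j)) ^ x) ^ r := by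
  have h1 : ∀ w ∈ W d r s, om q ^ (a * val c n0 w) =
      om q ^ (a * n0) * ∏ j, ∏ k, (om q ^ (a * c j)) ^ (w j k) := by
    intro w _
    have h2 : ∀ j, ∏ k, (om q ^ (a * c j)) ^ (w j k) = om q ^ (a * (c j * ∑ k, w j k)) := by
      intro j
      rw [prod_pow_eq_pow_sum, ← pow_mul, mul_assoc]
    rw [prod_congr rfl (fun j _ => h2 j), prod_pow_eq_pow_sum, ← pow_add, Pool.Agent.Zk46.FD.val, mul_add, mul_sum]
  rw [sum_congr rfl h1, ← mul_sum]
  congr 1
  have h3 : ∀ j : Fin d, (∑ x ∈ range s, (om q ^ (a * c j)) ^ x) ^ r =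
      ∑ v ∈ Fintype.piFinset (fun _ : Fin r => range s), ∏ k, (om q ^ (a * c j)) ^ (v k) := by
    intro j
    rw [← prod_univ_sum (fun _ : Fin r => range s) (fun _ x => (om q ^ (a * c j)) ^ x), prod_const,
      card_univ, Fintype.card_fin]
  rw [prod_congr rfl (fun j _ => h3 j), prod_univ_sum]
  rfl

theorem t_GOOD : S_GOOD := by
  intro d r s c n0 q H hq hs hH hG
  have hq0 : (0 : ℝ) < q := by exact_mod_cast hq
  have hs0 : (0 : ℝ) < s := by exact_mod_cast hs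
  have hH0 : (0 : ℝ) < H := by exact_mod_cast hH
  -- the Fourier series
  have h1 : ((cnt c n0 r s q : ℝ) : ℂ) * q = ∑ a ∈ range q, ∑ w ∈ W d r s, om q ^ (a * val c n0 w) := by
    rw [sum_comm, sum_congr rfl (fun w _ => orth q (val c n0 w) hq), ← sum_filter, sum_const,
      nsmul_eq_mul, cnt]
    push_cast
    rfl
  have h2 : range q = insert 0 (Ico 1 q) := by
    ext x; simp only [mem_range, mem_insert, mem_Ico]; omega
  have hW : ((W d r s).card : ℝ) = (s : ℝ) ^ (r * d) := by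
    rw [W, Fintype.card_piFinset]
    simp only [Fintype.card_piFinset, card_range, prod_const, card_univ, Fintype.card_fin]
    push_cast
    rw [← pow_mul]
  have h3 : (((cnt c n0 r s q * q - (s : ℝ) ^ (r * d) : ℝ)) : ℂ) =
      ∑ a ∈ Ico 1 q, ∑ w ∈ W d r s, om q ^ (a * val c n0 w) := by
    push_cast
    rw [h1, h2, sum_insert (by simp)]
    have h4 : ∑ w ∈ W d r s, om q ^ (0 * val c n0 w) = (s : ℂ) ^ (r * d) := by
      simp only [zero_mul, pow_zero, sum_const, nsmul_eq_mul, mul_one]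
      exact_mod_cast congrArg (fun x : ℝ => (x : ℂ)) hW
    rw [h4]
    ring
  have h5 : ∀ a ∈ Ico 1 q, ‖∑ w ∈ W d r s, om q ^ (a * val c n0 w)‖ ≤
      (s : ℝ) ^ (r * d) * ((H : ℝ) / s) ^ r := by
    intro a ha
    rw [mem_Ico] at ha
    obtain ⟨j0, hj0⟩ := hG a ha.1 ha.2
    rw [sum_w, norm_mul, om_norm q _ (by omega), one_mul, norm_prod,
      ← mul_prod_erase univ _ (mem_univ j0)]
    have h6 : ‖(∑ x ∈ range s, (om q ^ (a * c j0)) ^ x) ^ r‖ ≤ (H : ℝ) ^ r := by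
      rw [norm_pow]
      refine pow_le_pow_left₀ (norm_nonneg _) (K_bound q (a * c j0) H s hq hH ?_) r
      intro m
      have := hj0 m
      push_cast
      exact this
    have h7 : ∏ j ∈ univ.erase j0, ‖(∑ x ∈ range s, (om q ^ (a * c j)) ^ x) ^ r‖ ≤
        ∏ j ∈ univ.erase j0, (s : ℝ) ^ r := by
      refine prod_le_prod (fun _ _ => norm_nonneg _) fun j _ => ?_
      rw [norm_pow]
      exact pow_le_pow_left₀ (norm_nonneg _) (K_triv q _ s hq) r
    rw [prod_const, card_erase_of_mem (mem_univ j0), card_univ, Fintype.card_fin] at h7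
    refine (mul_le_mul h6 h7 (prod_nonneg fun _ _ => norm_nonneg _) (by positivity)).trans ?_
    have hd : d = d - 1 + 1 := by have := j0.2; omega
    have h8 : (s : ℝ) ^ (r * d) = ((s : ℝ) ^ r) ^ (d - 1) * (s : ℝ) ^ r := by
      conv_lhs => rw [hd]
      rw [mul_add, mul_one, pow_add, pow_mul]
    rw [h8, div_pow, mul_assoc, mul_div_cancel₀ _ (pow_ne_zero r hs0.ne'), mul_comm]
  have h9 : |cnt c n0 r s q * q - (s : ℝ) ^ (r * d)| ≤ q * ((s : ℝ) ^ (r * d) * ((H : ℝ) / s) ^ r) := by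
    have h10 : ‖(((cnt c n0 r s q * q - (s : ℝ) ^ (r * d) : ℝ)) : ℂ)‖ ≤
        ∑ a ∈ Ico 1 q, (s : ℝ) ^ (r * d) * ((H : ℝ) / s) ^ r := by
      rw [h3]
      exact (norm_sum_le _ _).trans (sum_le_sum h5)
    rw [Complex.norm_real, Real.norm_eq_abs, sum_const, Nat.card_Ico, nsmul_eq_mul] at h10
    refine h10.trans (mul_le_mul_of_nonneg_right ?_ (by positivity))
    exact_mod_cast Nat.sub_le q 1
  have h11 : cnt c n0 r s q - (s : ℝ) ^ (r * d) / q = (cnt c n0 r s q * q - (s : ℝ) ^ (r * d)) / q := by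
    field_simp
  rw [h11, abs_div, abs_of_pos hq0, div_le_iff₀ hq0]
  linarith

end Pool.Agent.Zk95.FD46
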